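import Pool.Agent.Y272.TY.Stm2
import Pool.Agent.Y839.TY.Near

/-!
# No superattracting parameter of small period is too close: general error functions
-/

set_option autoImplicit false

open Complex Filter Topology Metric Set MeasureTheory

namespace Pool.Agent.Y839.TY.G

open Pool.Agent.Y272.TY Pool.Agent.H712R2 Pool.Agent.H713R2 Pool.Agent.W677.Mar
open Pool.Agent.Y839.TY (log_pos' mm_eq)

/-- `g k` is sublinear -/
lemma g_le {g : ℕ → ℝ} (hg : Tendsto (fun n => g n / n) atTop (𝓝 0)) (E δ : ℝ) (hE : 0 ≤ E)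
    (hδ : 0 < δ) : ∃ C : ℝ, 0 ≤ C ∧ ∀ k : ℕ, E * g k ≤ δ * k + C := by
  have h1 : Tendsto (fun n : ℕ => E * (g n / n)) atTop (𝓝 (E * 0)) := hg.const_mul E
  rw [mul_zero] at h1
  obtain ⟨N, hN⟩ := eventually_atTop.1 (h1.eventually (gt_mem_nhds hδ))
  refine ⟨∑ k ∈ Finset.range (N + 1), |E * g k|, Finset.sum_nonneg fun _ _ => abs_nonneg _,
    fun k => ?_⟩
  have hS : 0 ≤ ∑ k ∈ Finset.range (N + 1), |E * g k| :=
    Finset.sum_nonneg fun _ _ => abs_nonneg _
  have hδk : 0 ≤ δ * k := by positivity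
  rcases Nat.lt_or_ge k (N + 1) with h | h
  · have h2 : |E * g k| ≤ ∑ k ∈ Finset.range (N + 1), |E * g k| :=
      Finset.single_le_sum (f := fun k => |E * g k|) (fun _ _ => abs_nonneg _)
        (Finset.mem_range.2 h)
    linarith [le_abs_self (E * g k)]
  · have h2 := hN k (by omega)
    have hk : (0 : ℝ) < k := by exact_mod_cast (by omega : 0 < k)
    have h3 : E * g k = E * (g k / k) * k := by
      field_simp
    rw [h3]
    have := mul_lt_mul_of_pos_right h2 hk
    linarith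

theorem t (hD : St_Dist) : St_NearG := by
  intro d c0 A g hd hA hmono hlogg hg0 hlow hsum
  have g_nonneg : ∀ k, 0 ≤ g k := fun k => by
    linarith [hlogg k, log_pos' k]
  have log_le_g : ∀ n : ℕ, Real.log ((n : ℝ) + 2) ≤ 2 * g n ∧ 1 ≤ 4 * g n := fun n => by
    have h1 := hlogg n
    have h2 := log_pos' n
    constructor <;> linarith
  have hd' : (2 : ℝ) ≤ d := by exact_mod_cast hd
  have hne : ∀ n : ℕ, P d (n + 1) c0 ≠ 0 := fun n h => by
    have := hlow n
    rw [h, norm_zero] at this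
    exact absurd this (not_le.2 (Real.exp_pos _))
  set E : ℝ := ((d : ℝ) - 1) * A with hE
  have hE0 : 0 ≤ E := mul_nonneg (by linarith) hA
  have hpos : ∀ k, 0 < mm d c0 (k + 1) := fun k => by
    rw [mm_eq hd hne]
    positivity
  have hup : ∀ k, mm d c0 (k + 1) ≤ (d : ℝ) ^ k * Real.exp (E * g k) := fun k => by
    rw [mm_eq hd hne]
    refine mul_le_mul_of_nonneg_left (Real.exp_le_exp.2 ?_) (by positivity)
    rw [hE, mul_assoc]
    exact mul_le_mul_of_nonneg_left ((le_abs_self _).trans (hsum k)) (by linarith)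
  have hlo : ∀ k, 1 / mm d c0 (k + 1) ≤ ((d : ℝ) ^ k)⁻¹ * Real.exp (E * g k) := fun k => by
    rw [mm_eq hd hne, one_div, mul_inv, ← Real.exp_neg]
    refine mul_le_mul_of_nonneg_left (Real.exp_le_exp.2 ?_) (by positivity)
    rw [hE, mul_assoc, ← mul_neg]
    exact mul_le_mul_of_nonneg_left ((neg_le_abs _).trans (hsum k)) (by linarith)
  -- summability
  have hS : Summable fun k : ℕ => ((d : ℝ) ^ k)⁻¹ * Real.exp (E * g k) := by
    obtain ⟨C, hC, hb⟩ := g_le hg0 E (1 / 4) hE0 (by norm_num)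
    have hr : Real.exp (1 / 4) / 2 < 1 := by
      have h1 : Real.exp (1 / 4) < Real.exp 1 := Real.exp_lt_exp.2 (by norm_num)
      have h2 : Real.exp (1 / 4) ^ 4 = Real.exp 1 := by
        rw [← Real.exp_nat_mul]
        norm_num
      have h3 : Real.exp (1 / 4) < 2 := by
        by_contra h
        push Not at h
        have h4 : (2 : ℝ) ^ 4 ≤ Real.exp (1 / 4) ^ 4 := pow_le_pow_left₀ (by norm_num) h 4
        rw [h2] at h4
        linarith [Real.exp_one_lt_d9]
      linarith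
    refine Summable.of_nonneg_of_le (fun k => by positivity) (fun k => ?_)
      ((summable_geometric_of_lt_one (by positivity) hr).mul_left (Real.exp C))
    have h1 : ((d : ℝ) ^ k)⁻¹ ≤ ((2 : ℝ) ^ k)⁻¹ :=
      inv_anti₀ (by positivity) (pow_le_pow_left₀ (by norm_num) hd' k)
    have h2 : Real.exp (E * g k) ≤ Real.exp (1 / 4) ^ k * Real.exp C := by
      rw [← Real.exp_nat_mul, ← Real.exp_add]
      exact Real.exp_le_exp.2 (by have := hb k; linarith)
    calc ((d : ℝ) ^ k)⁻¹ * Real.exp (E * g k) ≤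
          ((2 : ℝ) ^ k)⁻¹ * (Real.exp (1 / 4) ^ k * Real.exp C) :=
          mul_le_mul h1 h2 (by positivity) (by positivity)
      _ = Real.exp C * (Real.exp (1 / 4) / 2) ^ k := by
        rw [div_pow]
        field_simp
  set S : ℝ := ∑' k : ℕ, ((d : ℝ) ^ k)⁻¹ * Real.exp (E * g k) with hSdef
  have hS1 : 1 ≤ S := by
    have h1 := hS.le_tsum 0 (fun k _ => by positivity)
    have h2 : 1 ≤ Real.exp (E * g 0) := Real.one_le_exp (mul_nonneg hE0 (g_nonneg 0))
    simp only [pow_zero, inv_one, one_mul] at h1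
    linarith
  have hσ : ∀ j : ℕ, ∑ i ∈ Finset.Icc 1 j, 1 / mm d c0 i ≤ S := by
    intro j
    have h1 : ∑ i ∈ Finset.Icc 1 j, 1 / mm d c0 i = ∑ k ∈ Finset.range j, 1 / mm d c0 (k + 1) := by
      rw [Finset.range_eq_Ico, Finset.sum_Ico_add' (fun i => 1 / mm d c0 i) 0 j 1]
      rfl
    rw [h1]
    exact (Finset.sum_le_sum fun k _ => hlo k).trans
      (hS.sum_le_tsum _ (fun k _ => by positivity))
  have hσ0 : ∀ j : ℕ, 0 ≤ ∑ i ∈ Finset.Icc 1 j, 1 / mm d c0 i := fun j =>
    Finset.sum_nonneg fun i hi => by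
      obtain ⟨k, rfl⟩ : ∃ k, i = k + 1 := ⟨i - 1, by
        have := (Finset.mem_Icc.1 hi).1
        omega⟩
      exact (div_pos one_pos (hpos k)).le
  set G : ℝ := Real.log (3 * S * d) with hG
  have hG0 : 0 ≤ G := Real.log_nonneg (by nlinarith)
  refine ⟨E + 2 * (A + 2) + 4 * G, by positivity, fun n c hc k hk1 hkn => ?_⟩
  have hbn := g_nonneg n
  -- the main estimate
  have hest : ∀ j ∈ Finset.Icc 1 n, 3 * mm d c0 j * (∑ i ∈ Finset.Icc 1 j, 1 / mm d c0 i) *
      ‖c - c0‖ ≤ ‖P d j c0‖ / (d * ((j : ℝ) + 1) ^ 2) := by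
    intro j hj
    rw [Finset.mem_Icc] at hj
    obtain ⟨i, rfl⟩ : ∃ i, j = i + 1 := ⟨j - 1, by omega⟩
    have h1 : mm d c0 (i + 1) ≤ (d : ℝ) ^ n * Real.exp (E * g n) := by
      refine (hup i).trans (mul_le_mul (pow_le_pow_right₀ (by linarith) (by omega))
        (Real.exp_le_exp.2 (mul_le_mul_of_nonneg_left (hmono (by omega)) hE0))
        (by positivity) (by positivity))
    have h2 : 3 * mm d c0 (i + 1) * (∑ i ∈ Finset.Icc 1 (i + 1), 1 / mm d c0 i) * ‖c - c0‖ ≤
        3 * S * Real.exp (E * g n) * (‖c - c0‖ * (d : ℝ) ^ n) := by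
      have h3 : 3 * mm d c0 (i + 1) * (∑ i ∈ Finset.Icc 1 (i + 1), 1 / mm d c0 i) ≤
          3 * ((d : ℝ) ^ n * Real.exp (E * g n)) * S :=
        mul_le_mul (by linarith) (hσ _) (hσ0 _) (by positivity)
      calc _ ≤ 3 * ((d : ℝ) ^ n * Real.exp (E * g n)) * S * ‖c - c0‖ :=
            mul_le_mul_of_nonneg_right h3 (norm_nonneg _)
        _ = _ := by ring
    have h4 : 3 * S * Real.exp (E * g n) * (‖c - c0‖ * (d : ℝ) ^ n) ≤
        3 * S * Real.exp (E * g n) * Real.exp (-((E + 2 * (A + 2) + 4 * G) * g n)) :=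
      mul_le_mul_of_nonneg_left hc (by positivity)
    refine h2.trans (h4.trans ?_)
    rw [le_div_iff₀ (by positivity)]
    have h5 : 3 * S * Real.exp (E * g n) * Real.exp (-((E + 2 * (A + 2) + 4 * G) * g n)) *
        (d * (((i + 1 : ℕ) : ℝ) + 1) ^ 2) =
        Real.exp (G + E * g n - (E + 2 * (A + 2) + 4 * G) * g n +
          2 * Real.log (((i + 1 : ℕ) : ℝ) + 1)) := by
      rw [Real.exp_add, sub_eq_add_neg, Real.exp_add, Real.exp_add, hG,
        Real.exp_log (by positivity)]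
      have h6 : Real.exp (2 * Real.log (((i + 1 : ℕ) : ℝ) + 1)) =
          (((i + 1 : ℕ) : ℝ) + 1) ^ 2 := by
        have := Real.exp_nat_mul (Real.log (((i + 1 : ℕ) : ℝ) + 1)) 2
        rw [Real.exp_log (by positivity)] at this
        exact_mod_cast this
      rw [h6]
      ring
    rw [h5]
    refine le_trans (Real.exp_le_exp.2 ?_) (hlow i)
    have h7 : Real.log (((i + 1 : ℕ) : ℝ) + 1) = Real.log ((i : ℝ) + 2) := by
      congr 1
      push_cast
      ring
    rw [h7]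
    have h8 : Real.log ((i : ℝ) + 2) ≤ Real.log ((n : ℝ) + 2) :=
      Real.log_le_log (by positivity) (by
        have : (i : ℝ) ≤ n := by exact_mod_cast (by omega : i ≤ n)
        linarith)
    obtain ⟨h9, h10⟩ := log_le_g n
    have h11 : G ≤ 4 * G * g n := by nlinarith
    have h12 : (A + 2) * Real.log ((i : ℝ) + 2) ≤ (A + 2) * (2 * g n) :=
      mul_le_mul_of_nonneg_left (h8.trans h9) (by linarith)
    nlinarith
  have hdist := hD d c0 c n hd (fun j hj => by
    obtain ⟨i, rfl⟩ : ∃ i, j = i + 1 := ⟨j - 1, by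
      have := (Finset.mem_Icc.1 hj).1
      omega⟩
    exact hpos i) hest k (Finset.mem_Icc.2 ⟨hk1, hkn⟩)
  intro h0
  rw [h0, zero_sub, norm_neg] at hdist
  have h1 := hdist.trans (hest k (Finset.mem_Icc.2 ⟨hk1, hkn⟩))
  have h2 : 0 < ‖P d k c0‖ := by
    obtain ⟨i, rfl⟩ : ∃ i, k = i + 1 := ⟨k - 1, by omega⟩
    exact norm_pos_iff.2 (hne i)
  have h3 : (1 : ℝ) < d * ((k : ℝ) + 1) ^ 2 := by
    have : (0 : ℝ) ≤ k := Nat.cast_nonneg k
    nlinarith [sq_nonneg ((k : ℝ) + 1), mul_nonneg this this]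
  rw [le_div_iff₀ (by linarith)] at h1
  nlinarith

end Pool.Agent.Y839.TY.G
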